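import Pool.Agent.Lib.MP_132384_an.Gen

open Cardinal
open Pool.Agent.Lib.MP_132384_an

namespace Pool.Agent.Results.MP_132384_an.StrengthenedGeneratorFails

/-- Negative answer to Q1, over the real and over the complex numbers: there are a Banach space `X`
and a subspace `Y` of its dual such that `X` admits a projectional generator with domain `Y`, but for
every projectional generator `(Y, Φ)` there is `M ⊆ Y` such that the weak-star closed linear span of
`M` meets the annihilator of `Φ(M)` nontrivially. -/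
theorem result : ∀ (𝕜 : Type) [RCLike 𝕜],
    ∃ (X : Type) (_ : NormedAddCommGroup X) (_ : NormedSpace 𝕜 X) (_ : CompleteSpace X)
      (Y : Submodule 𝕜 (StrongDual 𝕜 X)),
      (∃ Φ : StrongDual 𝕜 X → Set X, IsProjGen Y Φ) ∧
      ∀ Φ : StrongDual 𝕜 X → Set X, IsProjGen Y Φ →
        ∃ M : Set (StrongDual 𝕜 X), M ⊆ Y ∧
          weakStarClosure (Submodule.span 𝕜 M : Set (StrongDual 𝕜 X)) ∩
            annih 𝕜 (unionOf Φ M) ≠ {0} := by
  intro 𝕜 _
  let lamI : Cardinal.{0} := Order.succ ℵ₀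
  let I := (Order.succ lamI).ord.ToType
  have hI0 : ℵ₀ ≤ lamI := Order.le_succ _
  have hIcard : #I = Order.succ lamI := Cardinal.mk_ord_toType _
  have hI : ℵ₀ ≤ #I := by
    rw [hIcard]
    exact hI0.trans (Order.le_succ _)
  let lamJ : Cardinal.{0} := 2 ^ #I
  let J := (Order.succ lamJ).ord.ToType
  have hJ0 : ℵ₀ ≤ lamJ := hI.trans (Cardinal.cantor _).le
  refine ⟨XX 𝕜 I J, inferInstance, inferInstance, ?_, YY 𝕜 I J, ⟨gen 𝕜, gen_isProjGen 𝕜⟩,
    fun Φ hΦ => XX_fail 𝕜 hI (sbdd_toType lamI hI0) (sbdd_toType lamJ hJ0) Φ hΦ⟩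
  unfold XX
  infer_instance

end Pool.Agent.Results.MP_132384_an.StrengthenedGeneratorFails
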